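import Pool.Agent.R687.Clo.Defs

namespace Pool.Agent.R687.Clo

variable {A : Type}

theorem depth_mono (U : Fam A) (k : ℕ) {i j : ℕ} (h : i ≤ j) : depth U k i ⊆ depth U k j := by
  induction h with
  | refl => exact subset_rfl
  | step _ ih => exact ih.trans (fun x hx => Or.inr hx)

theorem depth_proj (U : Fam A) (k n : ℕ) (i : Fin (k + 1)) : pr A k i ∈ depth U k n :=
  depth_mono U k (Nat.zero_le n) ⟨i, rfl⟩

theorem depth_one (U : Fam A) {k : ℕ} {f : Op A k} (hf : f ∈ U k) : f ∈ depth U k 1 :=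
  Or.inl ⟨k, f, hf, fun j => pr A k j, fun j => ⟨j, rfl⟩, rfl⟩

theorem depth_succ (U : Fam A) {k n i : ℕ} {f : Op A n} (hf : f ∈ U n)
    {g : Fin (n + 1) → Op A k} (hg : ∀ j, g j ∈ depth U k i) : cmp f g ∈ depth U k (i + 1) :=
  Or.inl ⟨n, f, hf, g, hg, rfl⟩

/-- terms of depth `i` over functions that are terms of depth `N` over `H` -/
theorem depth_comp (H : Fam A) {n m i i' : ℕ} {f : Op A n} (hf : f ∈ depth H n i)
    {g : Fin (n + 1) → Op A m} (hg : ∀ j, g j ∈ depth H m i') :
    cmp f g ∈ depth H m (i + i') := by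
  induction i generalizing f with
  | zero =>
    obtain ⟨j, rfl⟩ := hf
    rw [Nat.zero_add]
    exact hg j
  | succ i ih =>
    rcases hf with ⟨r, u, hu, h, hh, rfl⟩ | hf
    · have : cmp (cmp u h) g = cmp u (fun j => cmp (h j) g) := rfl
      rw [this, show i + 1 + i' = (i + i') + 1 by ring]
      exact depth_succ H hu (fun j => ih (hh j))
    · exact depth_mono H m (by omega) (ih hf)

theorem depth_trans (H U : Fam A) (N : ℕ) (hN : ∀ n, U n ⊆ depth H n N) (k i : ℕ) :
    depth U k i ⊆ depth H k (N * i) := by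
  induction i with
  | zero =>
    rintro f ⟨j, rfl⟩
    exact depth_proj H k _ j
  | succ i ih =>
    rintro f (⟨r, u, hu, h, hh, rfl⟩ | hf)
    · have := depth_comp H (hN r hu) (fun j => ih (hh j))
      rw [show N * (i + 1) = N + N * i by ring]
      exact this
    · exact depth_mono H k (by rw [Nat.mul_succ]; omega) (ih hf)

/-- the clone generated by `H` -/
def gen (H : Fam A) : Fam A := fun n => {f | ∃ i, f ∈ depth H n i}

theorem gen_clone (H : Fam A) : IsClone (gen H) where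
  proj n i := ⟨0, i, rfl⟩
  comp n m f g := by
    rintro ⟨i, hf⟩ hg
    choose e he using hg
    refine ⟨i + Finset.univ.sup e, depth_comp H hf (fun j => ?_)⟩
    exact depth_mono H m (Finset.le_sup (Finset.mem_univ j)) (he j)

theorem subset_gen (H : Fam A) (n : ℕ) : H n ⊆ gen H n := fun _ hf => ⟨1, depth_one H hf⟩

theorem depth_subset {F : Fam A} (hF : IsClone F) {H : Fam A} (hH : ∀ n, H n ⊆ F n) (k i : ℕ) :
    depth H k i ⊆ F k := by
  induction i with
  | zero =>
    rintro f ⟨j, rfl⟩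
    exact hF.proj k j
  | succ i ih =>
    rintro f (⟨r, u, hu, h, hh, rfl⟩ | hf)
    · exact hF.comp _ _ _ _ (hH r hu) (fun j => ih (hh j))
    · exact ih hf

theorem gen_subset {F : Fam A} (hF : IsClone F) {H : Fam A} (hH : ∀ n, H n ⊆ F n) (k : ℕ) :
    gen H k ⊆ F k := fun _ ⟨i, hf⟩ => depth_subset hF hH k i hf

theorem Generates.mem_gen {H F : Fam A} (h : Generates H F) {k : ℕ} {f : Op A k} (hf : f ∈ F k) :
    ∃ i, f ∈ depth H k i := h.2 (gen H) (gen_clone H) (subset_gen H) k hf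

theorem generates_of_gen {H F : Fam A} (hH : ∀ n, H n ⊆ F n) (h : ∀ n, F n ⊆ gen H n) :
    Generates H F :=
  ⟨hH, fun _ hC hHC n _ hf => gen_subset hC hHC n (h n hf)⟩

theorem pol_clone {ι : Type} (R : ι → A → A → Prop) : IsClone (Pol R) where
  proj _ i := fun _ _ _ h => h i
  comp _ _ _ _ hf hg := fun i _ _ h => hf i _ _ (fun j => hg j i _ _ h)

/-- the operations in a list -/
def lfam (L : List (Σ n, Op A n)) : Fam A := fun n => {f | (⟨n, f⟩ : Σ n, Op A n) ∈ L}

theorem lfam_bound (H : Fam A) (L : List (Σ n, Op A n)) (hL : ∀ p ∈ L, ∃ i, p.2 ∈ depth H p.1 i) :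
    ∃ N, ∀ n, lfam L n ⊆ depth H n N := by
  induction L with
  | nil => exact ⟨0, fun n f hf => by simp [lfam] at hf⟩
  | cons p L ih =>
    obtain ⟨N, hN⟩ := ih (fun q hq => hL q (List.mem_cons_of_mem _ hq))
    obtain ⟨i, hi⟩ := hL p List.mem_cons_self
    refine ⟨N + i, fun n f hf => ?_⟩
    rcases List.mem_cons.1 (show (⟨n, f⟩ : Σ n, Op A n) ∈ p :: L from hf) with h | h
    · subst h
      exact depth_mono H n (by omega) hi
    · exact depth_mono H n (by omega) (hN n h)

/-- strong distortion implies the Bergman property -/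
theorem bergman_of_distort {F : Fam A} (hF : IsClone F) (a : ℕ → ℕ → ℕ)
    (h : ∀ (k : ℕ) (f : ℕ → Op A k), (∀ n, f n ∈ F k) →
      ∃ L : List (Σ n, Op A n), (∀ p ∈ L, p.2 ∈ F p.1) ∧ ∀ n, f n ∈ depth (lfam L) k (a k n)) :
    Bergman F := by
  intro H hH k
  by_contra hcon
  push Not at hcon
  have h1 : ∀ n, ∃ f ∈ F k, f ∉ depth H k (n * a k n) := by
    intro n
    by_contra hc
    push Not at hc
    exact hcon (n * a k n) (Set.Subset.antisymm (depth_subset hF hH.1 k _) hc)
  choose f hfF hf using h1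
  obtain ⟨L, hL, hLf⟩ := h k f hfF
  obtain ⟨N, hN⟩ := lfam_bound H L (fun p hp => hH.mem_gen (hL p hp))
  exact hf N (depth_trans H (lfam L) N hN k _ (hLf N))

end Pool.Agent.R687.Clo
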