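import Pool.Agent.R687.Clo.Space

/-!
Countable subsets of the polymorphism clones of the rational Urysohn space and sphere lie in finitely
generated subclones; these clones have uncountable cofinality.
-/

namespace Pool.Agent.R687.Clo

open Function Classical

/-- `F` is generated (as a clone) by a finite set of operations -/
def FinGen {A : Type} (F : Fam A) : Prop :=
  ∃ L : List (Σ n, Op A n), Generates (fun n => {f | (⟨n, f⟩ : Σ n, Op A n) ∈ L}) F

/-- `(C i)_{i : ι}` is an increasing chain of proper subclones of `F` with union `F` -/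
structure IsChainOf {A ι : Type} [LinearOrder ι] (C : ι → Fam A) (F : Fam A) : Prop where
  clone : ∀ i, IsClone (C i)
  mono : ∀ i j, i ≤ j → ∀ n, C i n ⊆ C j n
  proper : ∀ i, (∀ n, C i n ⊆ F n) ∧ ∃ n, C i n ≠ F n
  union : ∀ n, F n = ⋃ i, C i n

/-- `F` is not finitely generated and is not the union of an increasing chain of proper subclones
indexed by a countable linearly ordered set (in particular by a cardinal number `≤ ℵ₀`) -/
def UncountableCofinality {A : Type} (F : Fam A) : Prop :=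
  ¬ FinGen F ∧ ∀ (ι : Type) [LinearOrder ι] [Countable ι] (C : ι → Fam A), ¬ IsChainOf C F

section general

variable {A : Type}

theorem no_chain {F : Fam A} (hF : IsClone F)
    (h : ∀ f : ℕ → Σ n, Op A n, (∀ n, (f n).2 ∈ F (f n).1) →
      ∃ L : List (Σ n, Op A n), (∀ p ∈ L, p.2 ∈ F p.1) ∧ ∀ n, (f n).2 ∈ gen (lfam L) (f n).1)
    (ι : Type) [LinearOrder ι] [Countable ι] (C : ι → Fam A) : ¬ IsChainOf C F := by
  intro hC
  have h0 : pr A 0 0 ∈ ⋃ i, C i 0 := by rw [← hC.union]; exact hF.proj 0 0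
  obtain ⟨i0, hi0⟩ := Set.mem_iUnion.1 h0
  haveI : Nonempty ι := ⟨i0⟩
  obtain ⟨e, he⟩ := exists_surjective_nat ι
  have h1 : ∀ i, ∃ p : Σ n, Op A n, p.2 ∈ F p.1 ∧ p.2 ∉ C i p.1 := by
    intro i
    obtain ⟨h2, n, hn⟩ := hC.proper i
    obtain ⟨f, hf, hf'⟩ := Set.exists_of_ssubset ((h2 n).ssubset_of_ne hn)
    exact ⟨⟨n, f⟩, hf, hf'⟩
  choose p hp hp' using h1
  obtain ⟨L, hL, hL'⟩ := h (fun k => p (e k)) (fun k => hp (e k))
  have h3 : ∀ L : List (Σ n, Op A n), (∀ p ∈ L, p.2 ∈ F p.1) → ∃ i, ∀ p ∈ L, p.2 ∈ C i p.1 := by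
    intro L
    induction L with
    | nil => exact fun _ => ⟨i0, by simp⟩
    | cons q L ih =>
      intro hq
      obtain ⟨i, hi⟩ := ih (fun p hp => hq p (List.mem_cons_of_mem _ hp))
      have h4 := hq q List.mem_cons_self
      rw [hC.union] at h4
      obtain ⟨i', hi'⟩ := Set.mem_iUnion.1 h4
      refine ⟨max i i', fun p hp => ?_⟩
      rcases List.mem_cons.1 hp with rfl | hp
      · exact hC.mono _ _ (le_max_right _ _) _ hi'
      · exact hC.mono _ _ (le_max_left _ _) _ (hi p hp)
  obtain ⟨i, hi⟩ := h3 L hL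
  obtain ⟨k, rfl⟩ := he i
  exact hp' (e k) (gen_subset (hC.clone (e k)) (fun n f hf => hi ⟨n, f⟩ hf) _ (hL' k))

theorem depth_countable (L : List (Σ n, Op A n)) (k i : ℕ) : (depth (lfam L) k i).Countable := by
  induction i with
  | zero =>
    have : depth (lfam L) k 0 = Set.range (pr A k) := by
      ext f
      constructor
      · rintro ⟨i, rfl⟩; exact ⟨i, rfl⟩
      · rintro ⟨i, rfl⟩; exact ⟨i, rfl⟩
    rw [this]
    exact Set.countable_range _
  | succ i ih =>
    refine Set.Countable.union ?_ ih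
    have h1 : {h : Op A k | ∃ n, ∃ f ∈ lfam L n, ∃ g : Fin (n + 1) → Op A k,
        (∀ j, g j ∈ depth (lfam L) k i) ∧ h = cmp f g} ⊆
        ⋃ n, ⋃ f ∈ lfam L n, (fun g : Fin (n + 1) → Op A k => cmp f g) ''
          (Set.pi Set.univ (fun _ => depth (lfam L) k i)) := by
      rintro h ⟨n, f, hf, g, hg, rfl⟩
      simp only [Set.mem_iUnion]
      exact ⟨n, f, hf, g, fun j _ => hg j, rfl⟩
    refine Set.Countable.mono h1 (Set.countable_iUnion (fun n => ?_))
    refine Set.Countable.biUnion ?_ (fun f _ => (Set.countable_univ_pi (fun _ => ih)).image _)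
    have h2 : (fun p : Σ n, Op A n => p) '' {p | p ∈ L} |>.Countable := by
      exact (List.finite_toSet L).countable.image _
    have h3 : lfam L n = (Sigma.mk n) ⁻¹' {p | p ∈ L} := rfl
    rw [h3]
    exact (List.finite_toSet L).countable.preimage sigma_mk_injective

theorem gen_countable (L : List (Σ n, Op A n)) (k : ℕ) : (gen (lfam L) k).Countable := by
  have : gen (lfam L) k = ⋃ i, depth (lfam L) k i := by
    ext f
    simp [gen]
  rw [this]
  exact Set.countable_iUnion (fun i => depth_countable L k i)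

end general

variable {X : Type} [MetricSpace X]

theorem exists_two {B : ℚ → Prop} {T : ℝ → ℝ} (hX : IsUry B X) (hT : Cap B T) (h1 : B 1) :
    ∃ u v : X, dist u v = 1 := by
  obtain ⟨e, he⟩ := hX.universal 2 (fun i j => if i = j then 0 else 1)
    (fun i j => by by_cases h : i = j <;> simp [h, h1, hT.zero]) (fun i => by simp)
    (fun i j h => by simp [h]) (fun i j => by simp only [eq_comm])
    (fun i j l => by
      by_cases h1 : i = j <;> by_cases h2 : j = l <;> by_cases h3 : i = l <;>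
        simp_all)
  exact ⟨e 0, e 1, by rw [he]; simp⟩

theorem not_finGen {B : ℚ → Prop} {T : ℝ → ℝ} (hX : IsUry B X) (hT : Cap B T) (h1 : B 1) :
    ¬ FinGen (Pol (metRel X)) := by
  rintro ⟨L, hL⟩
  have hc : (Pol (metRel X) 0).Countable := (gen_countable L 0).mono (fun f hf => hL.mem_gen hf)
  obtain ⟨u, v, huv⟩ := exists_two hX hT h1
  obtain ⟨j, hj, hφ⟩ := good_embedding hX hT (Z := ℕ) (fun n m => if n = m then 0 else 1)
    (fun n => by simp) (fun n m => by simp only [eq_comm])
    (fun a b c => by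
      by_cases h1 : a = b <;> by_cases h2 : b = c <;> by_cases h3 : a = c <;> simp_all)
    (fun a b => by
      by_cases h : a = b
      · exact ⟨0, hT.zero, by simp [h]⟩
      · exact ⟨1, h1, by simp [h]⟩)
  have h2 : ∀ S : Set ℕ, ∃ F : X → X, NE F ∧ ∀ n, F (j n) = if n ∈ S then u else v := by
    intro S
    obtain ⟨F, hF, hF'⟩ := hφ (fun n => if n ∈ S then u else v) (fun a b => by
      by_cases h : a = b
      · simp [h]
      · by_cases ha : a ∈ S <;> by_cases hb : b ∈ S <;> simp [h, ha, hb, huv, dist_comm v u])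
    exact ⟨F, hF, hF'⟩
  choose F hF hF' using h2
  have huv' : u ≠ v := by
    intro h
    rw [h, dist_self] at huv
    exact zero_ne_one huv
  haveI : Countable (Pol (metRel X) 0) := hc.to_subtype
  have hinj : Function.Injective
      (fun S : Set ℕ => (⟨un (F S), un_mem (hF S)⟩ : Pol (metRel X) 0)) := by
    intro S S' h
    have h3 : un (F S) = un (F S') := congrArg Subtype.val h
    ext n
    have h4 := congrFun h3 (fun _ => j n)
    simp only [un, hF'] at h4
    by_cases ha : n ∈ S <;> by_cases hb : n ∈ S' <;> simp_all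
  have hcount : Countable (Set ℕ) := hinj.countable
  obtain ⟨f, hf⟩ := exists_surjective_nat (Set ℕ)
  exact Function.cantor_surjective f hf

theorem un_gen (U : Fam X) {F : X → X} (hF : un F ∈ U 0) {k : ℕ} {h : Op X k}
    (hh : h ∈ gen U k) : (fun x => F (h x)) ∈ gen U k := by
  obtain ⟨i, hi⟩ := hh
  exact ⟨i + 1, un_depth U hF hi⟩

theorem un_iter_gen (U : Fam X) {F : X → X} (hF : un F ∈ U 0) {k : ℕ} {h : Op X k}
    (hh : h ∈ gen U k) (n : ℕ) : (fun x => F^[n] (h x)) ∈ gen U k := by
  obtain ⟨i, hi⟩ := hh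
  exact ⟨i + n, un_iter_depth U hF hi n⟩

theorem countable_sphere (hX : IsUrySphere X) (f : ℕ → Σ n, Op X n)
    (hf : ∀ n, (f n).2 ∈ Pol (metRel X) (f n).1) :
    ∃ L : List (Σ n, Op X n), (∀ p ∈ L, p.2 ∈ Pol (metRel X) p.1) ∧
      ∀ n, (f n).2 ∈ gen (lfam L) (f n).1 := by
  have hX' : IsUry (fun q => q ≤ 1) X := hX
  obtain ⟨j, a, b, hj, ha, hb, ha', hb'⟩ := pairing hX' cap_sphere
  obtain ⟨s, t, hs, ht, hco⟩ := coding hX' cap_sphere (fun _ _ => 1) (fun _ _ => rfl)
    (fun _ _ => ⟨1, le_refl _, by norm_num⟩)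
    (fun x y z => by have := dist_nonneg (x := x) (y := y); linarith)
    (fun x y z => by have := sphere_dist_le hX x z; linarith) (fun x y z => by norm_num)
  have hfac := fun n => factor hX' ha' hb' ha hb (hf n)
  choose g hg hfg using hfac
  obtain ⟨F, hF, hgF⟩ := hco g hg (fun n m x y _ => sphere_dist_le hX _ _)
  set L : List (Σ n, Op X n) := [⟨1, pop j⟩, ⟨0, un F⟩, ⟨0, un s⟩, ⟨0, un t⟩] with hL
  have h1 : pop j ∈ lfam L 1 := by simp [lfam, hL]
  have h2 : un F ∈ lfam L 0 := by simp [lfam, hL]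
  have h3 : un s ∈ lfam L 0 := by simp [lfam, hL]
  have h4 : un t ∈ lfam L 0 := by simp [lfam, hL]
  refine ⟨L, ?_, fun n => ?_⟩
  · intro p hp
    simp only [hL, List.mem_cons, List.not_mem_nil, or_false] at hp
    rcases hp with rfl | rfl | rfl | rfl
    · exact pop_mem hj
    · exact un_mem hF
    · exact un_mem hs
    · exact un_mem ht
  · have := un_gen _ h2 (un_iter_gen _ h3 (un_gen _ h4 ⟨_, pk_depth j _ h1 (f n).1⟩) n)
    rw [hfg n]
    simp only [hgF]
    exact this

theorem countable_space (hX : IsUrySpace X) (f : ℕ → Σ n, Op X n)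
    (hf : ∀ n, (f n).2 ∈ Pol (metRel X) (f n).1) :
    ∃ L : List (Σ n, Op X n), (∀ p ∈ L, p.2 ∈ Pol (metRel X) p.1) ∧
      ∀ n, (f n).2 ∈ gen (lfam L) (f n).1 := by
  have hX' : IsUry (fun _ => True) X := hX
  obtain ⟨x0⟩ := exists_point hX' cap_space
  obtain ⟨j, a, b, hj, ha, hb, ha', hb'⟩ := pairing hX' cap_space
  obtain ⟨s, t, hs, ht, hco⟩ := coding hX' cap_space (fun x y => dist x x0 + dist y x0 + 2)
    (fun x y => by ring)
    (fun x y => by
      obtain ⟨q, _, hq⟩ := hX'.rational x x0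
      obtain ⟨r, _, hr⟩ := hX'.rational y x0
      exact ⟨q + r + 2, trivial, by rw [hq, hr]; push_cast; ring⟩)
    (fun x y z => by have := dist_triangle x y x0; linarith)
    (fun x y z => by
      have h1 := dist_triangle x x0 z
      have h2 := dist_nonneg (x := y) (y := x0)
      rw [dist_comm x0 z] at h1
      linarith)
    (fun x y z => by have := dist_nonneg (x := y) (y := x0); linarith)
  have hfac := fun n => factor hX' ha' hb' ha hb (hf n)
  choose g hg hfg using hfac
  have hr : ∀ n, ∃ (τ : X ≃ᵢ X) (l : List (X → X)), (∀ h ∈ l, NE h ∧ dist (h x0) x0 ≤ 1) ∧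
      ⇑τ = lc l ∧ τ x0 = g n x0 := by
    intro n
    obtain ⟨N, hN⟩ := exists_nat_dist x0 (g n x0)
    exact reach hX x0 N _ hN
  choose τ l hl hτ hτ0 using hr
  let g' : ℕ → X → X := fun n x => (τ n).symm (g n x)
  have hg' : ∀ n, NE (g' n) := fun n x y => by
    show dist ((τ n).symm _) ((τ n).symm _) ≤ _
    rw [(τ n).symm.dist_eq]
    exact hg n x y
  have hg'0 : ∀ n, g' n x0 = x0 := fun n => by
    show (τ n).symm (g n x0) = x0
    rw [← hτ0, IsometryEquiv.symm_apply_apply]
  let w : ℕ → ℕ → X → X := fun n m => match m with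
    | 0 => g' n
    | m + 1 => (l n).getD m id
  have hw : ∀ n m, NE (w n m) ∧ dist (w n m x0) x0 ≤ 1 := by
    intro n m
    cases m with
    | zero => exact ⟨hg' n, by show dist (g' n x0) x0 ≤ 1; rw [hg'0, dist_self]; norm_num⟩
    | succ m =>
      show NE ((l n).getD m id) ∧ dist ((l n).getD m id x0) x0 ≤ 1
      by_cases hm : m < (l n).length
      · rw [List.getD_eq_getElem _ _ hm]
        exact hl n _ (List.getElem_mem hm)
      · rw [List.getD_eq_default _ _ (not_lt.1 hm)]
        exact ⟨fun x y => le_refl _, by simp⟩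
  let β : ℕ → X → X := fun k => w k.unpair.1 k.unpair.2
  have hβ : ∀ k, NE (β k) ∧ dist (β k x0) x0 ≤ 1 := fun k => hw _ _
  obtain ⟨F, hF, hgF⟩ := hco β (fun k => (hβ k).1) (fun n m x y _ => by
    have e1 := dist_triangle4 (β n x) (β n x0) (β m x0) (β m y)
    have e2 := dist_triangle (β n x0) x0 (β m x0)
    have e3 := (hβ n).1 x x0
    have e4 := (hβ m).1 x0 y
    have e5 := (hβ n).2
    have e6 := (hβ m).2
    rw [dist_comm x0 y] at e4
    rw [dist_comm x0 (β m x0)] at e2
    linarith)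
  set L : List (Σ n, Op X n) := [⟨1, pop j⟩, ⟨0, un F⟩, ⟨0, un s⟩, ⟨0, un t⟩] with hL
  have h1 : pop j ∈ lfam L 1 := by simp [lfam, hL]
  have h2 : un F ∈ lfam L 0 := by simp [lfam, hL]
  have h3 : un s ∈ lfam L 0 := by simp [lfam, hL]
  have h4 : un t ∈ lfam L 0 := by simp [lfam, hL]
  have hβgen : ∀ k {r : ℕ} {h : Op X r}, h ∈ gen (lfam L) r →
      (fun x => β k (h x)) ∈ gen (lfam L) r := by
    intro k r h hh
    have := un_gen _ h2 (un_iter_gen _ h3 (un_gen _ h4 hh) k)
    simp only [hgF]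
    exact this
  refine ⟨L, ?_, fun n => ?_⟩
  · intro p hp
    simp only [hL, List.mem_cons, List.not_mem_nil, or_false] at hp
    rcases hp with rfl | rfl | rfl | rfl
    · exact pop_mem hj
    · exact un_mem hF
    · exact un_mem hs
    · exact un_mem ht
  · have h5 : (fun x => g' n (pk j (f n).1 x)) ∈ gen (lfam L) (f n).1 := by
      have := hβgen (Nat.pair n 0) ⟨_, pk_depth j _ h1 (f n).1⟩
      simpa [β, w] using this
    have h6 := lc_gen (lfam L) h5 (l n) (fun G hG => by
      obtain ⟨m, hm, rfl⟩ := List.getElem_of_mem hG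
      have h7 : (pr X 0 0) ∈ gen (lfam L) 0 := ⟨0, 0, rfl⟩
      have := hβgen (Nat.pair n (m + 1)) h7
      have h8 : β (Nat.pair n (m + 1)) = (l n)[m] := by
        simp only [β, w, Nat.unpair_pair]
        rw [List.getD_eq_getElem _ _ hm]
      rw [h8] at this
      exact this)
    rw [← hτ n] at h6
    rw [hfg n]
    have h9 : (fun x => (τ n) (g' n (pk j (f n).1 x))) = fun x => g n (pk j (f n).1 x) := by
      funext x
      exact IsometryEquiv.apply_symm_apply _ _
    rw [h9] at h6
    exact h6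

theorem cofinality_space (hX : IsUrySpace X) : UncountableCofinality (Pol (metRel X)) :=
  ⟨not_finGen hX cap_space trivial, fun _ _ _ C => no_chain (pol_clone _) (countable_space hX) _ C⟩

theorem cofinality_sphere (hX : IsUrySphere X) : UncountableCofinality (Pol (metRel X)) :=
  ⟨not_finGen hX cap_sphere (le_refl _),
    fun _ _ _ C => no_chain (pol_clone _) (countable_sphere hX) _ C⟩

end Pool.Agent.R687.Clo
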