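import Mathlib

/-!
Clones, term depth, the Bergman property, polymorphism clones; the rational Urysohn space and the
rational Urysohn sphere.
-/

namespace Pool.Agent.R687.Clo

/-- operations on `A` of arity `n + 1` (so all arities are at least one) -/
abbrev Op (A : Type) (n : ℕ) := (Fin (n + 1) → A) → A

/-- a set of finitary operations on `A`: `F n` is its set of operations of arity `n + 1` -/
abbrev Fam (A : Type) := (n : ℕ) → Set (Op A n)

/-- the projections -/
def pr (A : Type) (n : ℕ) (i : Fin (n + 1)) : Op A n := fun x => x i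

/-- the composition `f ∘ ⟨g_1, …, g_n⟩` -/
def cmp {A : Type} {n m : ℕ} (f : Op A n) (g : Fin (n + 1) → Op A m) : Op A m :=
  fun x => f (fun i => g i x)

/-- clones: sets of operations with all projections, closed under composition -/
structure IsClone {A : Type} (F : Fam A) : Prop where
  proj : ∀ n i, pr A n i ∈ F n
  comp : ∀ (n m : ℕ) (f : Op A n) (g : Fin (n + 1) → Op A m), f ∈ F n → (∀ i, g i ∈ F m) →
    cmp f g ∈ F m

/-- `H ⊆ F` and `F` is contained in every clone that contains `H` (for a clone `F`: `F` is the
smallest clone containing `H`) -/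
def Generates {A : Type} (H F : Fam A) : Prop :=
  (∀ n, H n ⊆ F n) ∧ ∀ C : Fam A, IsClone C → (∀ n, H n ⊆ C n) → ∀ n, F n ⊆ C n

/-- `depth U k i` is the set `U^{[k+1,i]}` of the `(k+1)`-ary operations given by terms over `U` of
depth at most `i` -/
def depth {A : Type} (U : Fam A) (k : ℕ) : ℕ → Set (Op A k)
  | 0 => {p | ∃ i, p = pr A k i}
  | i + 1 => {h | ∃ n, ∃ f ∈ U n, ∃ g : Fin (n + 1) → Op A k,
      (∀ j, g j ∈ depth U k i) ∧ h = cmp f g} ∪ depth U k i

/-- the Bergman property -/
def Bergman {A : Type} (F : Fam A) : Prop :=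
  ∀ H : Fam A, Generates H F → ∀ k : ℕ, ∃ n : ℕ, depth H k n = F k

/-- the polymorphisms of the relational structure on `A` with the binary relations `R i`, `i : ι` -/
def Pol {A ι : Type} (R : ι → A → A → Prop) : Fam A :=
  fun n => {f : Op A n | ∀ (i : ι) (x y : Fin (n + 1) → A), (∀ j, R i (x j) (y j)) →
    R i (f x) (f y)}

/-- the relations `d(x,y) ≤ q`, `q` a nonnegative rational number, of a metric space -/
def metRel (X : Type) [MetricSpace X] : {q : ℚ // 0 ≤ q} → X → X → Prop :=
  fun q x y => dist x y ≤ ((q : ℚ) : ℝ)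

/-- the relation `x ≤ y` on the rationals -/
def ratRel : Unit → ℚ → ℚ → Prop := fun _ x y => x ≤ y

/-- `X` is a countable homogeneous metric space with rational distances in the set `{q | B q}` into
which all finite metric spaces with such distances embed -/
structure IsUry (B : ℚ → Prop) (X : Type) [MetricSpace X] : Prop where
  countable : Countable X
  rational : ∀ x y : X, ∃ q : ℚ, B q ∧ dist x y = q
  /-- every isometry between finite subsets extends to an isometry of the whole space -/
  homogeneous : ∀ (A : Finset X) (f : X → X), (∀ x ∈ A, ∀ y ∈ A, dist (f x) (f y) = dist x y) →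
    ∃ g : X ≃ᵢ X, ∀ x ∈ A, g x = f x
  /-- every finite metric space with rational distances in `{q | B q}` embeds isometrically -/
  universal : ∀ (n : ℕ) (d : Fin n → Fin n → ℚ), (∀ i j, B (d i j)) → (∀ i, d i i = 0) →
    (∀ i j, i ≠ j → 0 < d i j) → (∀ i j, d i j = d j i) → (∀ i j l, d i l ≤ d i j + d j l) →
    ∃ e : Fin n → X, ∀ i j, dist (e i) (e j) = d i j

/-- `X` is the rational Urysohn space -/
def IsUrySpace (X : Type) [MetricSpace X] : Prop := IsUry (fun _ => True) X

/-- `X` is the rational Urysohn sphere -/
def IsUrySphere (X : Type) [MetricSpace X] : Prop := IsUry (fun q => q ≤ 1) X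

end Pool.Agent.R687.Clo
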