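import Pool.Agent.R687.Clo.Defs

/-!
The extension property of the rational Urysohn space and of the rational Urysohn sphere.
-/

namespace Pool.Agent.R687.Clo

open Function Classical

/-- a truncation `T` of nonnegative numbers adapted to the set of distances `{q | B q}` -/
structure Cap (B : ℚ → Prop) (T : ℝ → ℝ) : Prop where
  mono : ∀ {a b}, a ≤ b → T a ≤ T b
  le : ∀ t, T t ≤ t
  sub : ∀ {a b}, 0 ≤ a → 0 ≤ b → T (a + b) ≤ T a + T b
  fix : ∀ {q : ℚ}, B q → T q = q
  rat : ∀ {q : ℚ}, 0 ≤ q → ∃ r : ℚ, B r ∧ T q = r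
  pos : ∀ {t}, 0 < t → 0 < T t
  zero : B 0

theorem cap_space : Cap (fun _ => True) (fun t => t) where
  mono h := h
  le _ := le_refl _
  sub _ _ := le_refl _
  fix _ := rfl
  rat {q} _ := ⟨q, trivial, rfl⟩
  pos h := h
  zero := trivial

theorem cap_sphere : Cap (fun q => q ≤ 1) (fun t => min t 1) where
  mono h := min_le_min_right _ h
  le _ := min_le_left _ _
  sub {a b} ha hb := by
    rcases le_total a 1 with h | h
    · rcases le_total b 1 with h' | h'
      · rw [min_eq_left h, min_eq_left h']; exact min_le_left _ _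
      · rw [min_eq_left h, min_eq_right h']
        exact (min_le_right _ _).trans (by linarith)
    · rw [min_eq_right h]
      exact (min_le_right _ _).trans (by have : 0 ≤ min b 1 := le_min hb zero_le_one; linarith)
  fix {q} h := min_eq_left (by exact_mod_cast h)
  rat {q} _ := ⟨min q 1, min_le_right _ _, by push_cast; rfl⟩
  pos h := lt_min h one_pos
  zero := by norm_num

variable {X : Type} [MetricSpace X] {B : ℚ → Prop} {T : ℝ → ℝ}

theorem ext_prop (hX : IsUry B X) {ι : Type} [Finite ι] (d : ι → ι → ℝ)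
    (hrat : ∀ i j, ∃ q : ℚ, B q ∧ d i j = q) (h0 : ∀ i, d i i = 0) (hpos : ∀ i j, i ≠ j → 0 < d i j)
    (hs : ∀ i j, d i j = d j i) (ht : ∀ i j l, d i l ≤ d i j + d j l) (J : Set ι) (r : ι → X)
    (hr : ∀ i ∈ J, ∀ j ∈ J, dist (r i) (r j) = d i j) :
    ∃ e : ι → X, (∀ i j, dist (e i) (e j) = d i j) ∧ ∀ i ∈ J, e i = r i := by
  obtain ⟨n, ⟨eqv⟩⟩ := Finite.exists_equiv_fin ι
  choose q hB hq using hrat
  obtain ⟨e0, he0⟩ := hX.universal n (fun i j => q (eqv.symm i) (eqv.symm j))
    (fun i j => hB _ _)
    (fun i => by have := hq (eqv.symm i) (eqv.symm i); rw [h0] at this; exact_mod_cast this.symm)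
    (fun i j hij => by
      have := hpos (eqv.symm i) (eqv.symm j) (fun h => hij (eqv.symm.injective h))
      rw [hq] at this; exact_mod_cast this)
    (fun i j => by
      have := hs (eqv.symm i) (eqv.symm j)
      rw [hq, hq] at this; exact_mod_cast this)
    (fun i j l => by
      have := ht (eqv.symm i) (eqv.symm j) (eqv.symm l)
      rw [hq, hq, hq] at this; exact_mod_cast this)
  have he1 : ∀ i j, dist (e0 (eqv i)) (e0 (eqv j)) = d i j := by
    intro i j
    rw [he0]; simp [hq]
  have hinj : Injective (fun i => e0 (eqv i)) := by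
    intro i j hij
    by_contra hne
    have h1 := hpos i j hne
    rw [← he1] at h1
    have : dist (e0 (eqv i)) (e0 (eqv j)) = 0 := by
      have : e0 (eqv i) = e0 (eqv j) := hij
      rw [this, dist_self]
    linarith
  haveI : Fintype ι := Fintype.ofFinite ι
  let A : Finset X := (Finset.univ.filter (fun i => i ∈ J)).image (fun i => e0 (eqv i))
  let f : X → X := fun x => if h : ∃ i ∈ J, e0 (eqv i) = x then r h.choose else x
  have hf : ∀ i ∈ J, f (e0 (eqv i)) = r i := by
    intro i hi
    have h : ∃ i' ∈ J, e0 (eqv i') = e0 (eqv i) := ⟨i, hi, rfl⟩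
    have h2 : h.choose = i := hinj h.choose_spec.2
    simp only [f, dif_pos h]
    rw [h2]
  obtain ⟨g, hg⟩ := hX.homogeneous A f (by
    intro x hx y hy
    simp only [A, Finset.mem_image, Finset.mem_filter, Finset.mem_univ, true_and] at hx hy
    obtain ⟨i, hi, rfl⟩ := hx
    obtain ⟨j, hj, rfl⟩ := hy
    rw [hf i hi, hf j hj, he1, hr i hi j hj])
  refine ⟨fun i => g (e0 (eqv i)), fun i j => ?_, fun i hi => ?_⟩
  · rw [g.dist_eq, he1]
  · show g (e0 (eqv i)) = r i
    rw [hg _ (by simp only [A, Finset.mem_image, Finset.mem_filter, Finset.mem_univ, true_and]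
                 exact ⟨i, hi, rfl⟩), hf i hi]

theorem exists_point (hX : IsUry B X) (hT : Cap B T) : Nonempty X := by
  obtain ⟨e, _⟩ := hX.universal 1 (fun _ _ => 0) (fun _ _ => hT.zero) (fun _ => rfl)
    (fun i j h => absurd (Subsingleton.elim i j) h) (fun _ _ => rfl) (fun _ _ _ => by norm_num)
  exact ⟨e 0⟩

/-- the extension property: a rational Katetov function on finitely many points is realised -/
theorem ext (hX : IsUry B X) (hT : Cap B T) {n : ℕ} (p : Fin n → X) (g : Fin n → ℝ)
    (hg : ∀ i, ∃ q : ℚ, B q ∧ g i = q) (h0 : ∀ i, 0 ≤ g i)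
    (h1 : ∀ i j, g i ≤ dist (p i) (p j) + g j) (h2 : ∀ i j, dist (p i) (p j) ≤ g i + g j) :
    ∃ x, ∀ i, dist x (p i) = g i := by
  by_cases hz : ∃ i, g i = 0
  · obtain ⟨i, hi⟩ := hz
    refine ⟨p i, fun j => le_antisymm ?_ ?_⟩
    · have := h2 i j; linarith
    · have := h1 j i; rw [dist_comm] at this; linarith
  push Not at hz
  have hpos : ∀ i, 0 < g i := fun i => lt_of_le_of_ne (h0 i) (Ne.symm (hz i))
  have hcon : ∀ i j, p i = p j → g i = g j := by
    intro i j hij
    have e1 := h1 i j
    have e2 := h1 j i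
    rw [hij, dist_self] at e1 e2
    linarith
  let A : Finset X := Finset.univ.image p
  have hA : ∀ x : A, ∃ i, p i = x := by
    intro x
    obtain ⟨i, -, hi⟩ := Finset.mem_image.1 x.2
    exact ⟨i, hi⟩
  choose c hc using hA
  obtain ⟨x0⟩ := exists_point hX hT
  let G : A → ℝ := fun x => g (c x)
  let d : Option A → Option A → ℝ := fun a b => match a, b with
    | none, none => 0
    | none, some y => G y
    | some x, none => G x
    | some x, some y => dist (x : X) (y : X)
  have hG1 : ∀ x y : A, G x ≤ dist (x : X) y + G y := by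
    intro x y
    have := h1 (c x) (c y)
    rw [hc, hc] at this
    exact this
  have hG2 : ∀ x y : A, dist (x : X) y ≤ G x + G y := by
    intro x y
    have := h2 (c x) (c y)
    rw [hc, hc] at this
    exact this
  obtain ⟨e, he, hJ⟩ := ext_prop hX d (by
      rintro (_ | x) (_ | y)
      · exact ⟨0, hT.zero, by simp [d]⟩
      · exact hg _
      · exact hg _
      · exact hX.rational x y)
    (by
      rintro (_ | x)
      · rfl
      · exact dist_self _)
    (by
      rintro (_ | x) (_ | y) hne
      · exact absurd rfl hne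
      · exact hpos _
      · exact hpos _
      · exact dist_pos.2 (fun h => hne (by rw [Subtype.ext h])))
    (by
      rintro (_ | x) (_ | y)
      · rfl
      · rfl
      · rfl
      · exact dist_comm _ _)
    (by
      rintro (_ | x) (_ | y) (_ | z)
      · simp [d]
      · show G z ≤ 0 + G z
        linarith
      · show (0 : ℝ) ≤ G y + G y
        have := hpos (c y)
        show 0 ≤ g (c y) + g (c y)
        linarith
      · show G z ≤ G y + dist (y : X) z
        have := hG1 z y
        rw [dist_comm] at this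
        linarith
      · show G x ≤ G x + 0
        linarith
      · show dist (x : X) z ≤ G x + G z
        exact hG2 x z
      · show G x ≤ dist (x : X) y + G y
        exact hG1 x y
      · exact dist_triangle _ _ _)
    {a | ∃ x, a = some x} (fun a => match a with
      | none => x0
      | some x => (x : X)) (by
      rintro _ ⟨x, rfl⟩ _ ⟨y, rfl⟩
      rfl)
  refine ⟨e none, fun i => ?_⟩
  have hi : p i ∈ A := by simp [A]
  have h3 := he none (some ⟨p i, hi⟩)
  have h4 := hJ (some ⟨p i, hi⟩) ⟨_, rfl⟩
  rw [h4] at h3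
  have h5 : G ⟨p i, hi⟩ = g i := hcon _ _ (hc ⟨p i, hi⟩)
  rw [← h5]
  exact h3

end Pool.Agent.R687.Clo
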