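import Pool.Agent.R687.Clo.Ext

/-!
Every countable metric space with admissible distances has an isometric embedding into the rational
Urysohn space (sphere) such that all non-expansive maps into this space extend.
-/

namespace Pool.Agent.R687.Clo

open Function Classical

section seq

variable {X : Type} [Nonempty X]

/-- greedy choice of a sequence -/
noncomputable def mkSeq (Q : (n : ℕ) → (Fin n → X) → X → Prop) (n : ℕ) : X :=
  if h : ∃ x, Q n (fun i : Fin n => mkSeq Q i) x then h.choose else Classical.arbitrary X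
termination_by n
decreasing_by all_goals exact i.2

theorem mkSeq_spec (Q : (n : ℕ) → (Fin n → X) → X → Prop) (n : ℕ)
    (h : ∃ x, Q n (fun i : Fin n => mkSeq Q i) x) : Q n (fun i : Fin n => mkSeq Q i) (mkSeq Q n) := by
  rw [mkSeq]
  rw [dif_pos h]
  exact h.choose_spec

theorem seq_exists (Q : (n : ℕ) → (Fin n → X) → X → Prop) :
    ∃ p : ℕ → X, ∀ n, (∃ x, Q n (fun i : Fin n => p i) x) → Q n (fun i : Fin n => p i) (p n) :=
  ⟨mkSeq Q, mkSeq_spec Q⟩

end seq

variable {X : Type} [MetricSpace X] {B : ℚ → Prop} {T : ℝ → ℝ}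

theorem Cap.nonneg (hT : Cap B T) {t : ℝ} (ht : 0 ≤ t) : 0 ≤ T t := by
  rcases ht.eq_or_lt with h | h
  · have := hT.fix hT.zero
    rw [Rat.cast_zero] at this
    rw [← h, this]
  · exact (hT.pos h).le

theorem fix_dist (hX : IsUry B X) (hT : Cap B T) (x y : X) : T (dist x y) = dist x y := by
  obtain ⟨q, hq, h⟩ := hX.rational x y
  rw [h]
  exact hT.fix hq

theorem rat_add (hT : Cap B T) {a b : ℝ} (ha : ∃ q : ℚ, B q ∧ a = q) (hb : ∃ q : ℚ, B q ∧ b = q)
    (h : 0 ≤ a + b) : ∃ q : ℚ, B q ∧ T (a + b) = q := by
  obtain ⟨p, _, rfl⟩ := ha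
  obtain ⟨q, _, rfl⟩ := hb
  obtain ⟨r, hr, h2⟩ := hT.rat (q := p + q) (by exact_mod_cast h)
  exact ⟨r, hr, by rw [← h2]; push_cast; rfl⟩

/-- one step of the extension of a non-expansive map -/
theorem onestep (hX : IsUry B X) (hT : Cap B T) {n : ℕ} (x : X) (p q : Fin n → X)
    (h : ∀ i j, dist (q i) (q j) ≤ dist (p i) (p j)) : ∃ y, ∀ i, dist y (q i) ≤ dist x (p i) := by
  have hex : ∀ j : Fin n, ∃ i, ∀ i', dist x (p i) + dist (q i) (q j) ≤
      dist x (p i') + dist (q i') (q j) := by
    intro j
    obtain ⟨i, _, hi⟩ := Finset.exists_min_image (Finset.univ : Finset (Fin n))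
      (fun i => dist x (p i) + dist (q i) (q j)) ⟨j, Finset.mem_univ _⟩
    exact ⟨i, fun i' => hi i' (Finset.mem_univ _)⟩
  choose c hc using hex
  obtain ⟨y, hy⟩ := ext hX hT q (fun j => T (dist x (p (c j)) + dist (q (c j)) (q j)))
    (fun j => rat_add hT (hX.rational _ _) (hX.rational _ _) (by positivity))
    (fun j => hT.nonneg (by positivity))
    (fun i j => by
      have h1 := hc i (c j)
      have h2 : T (dist x (p (c i)) + dist (q (c i)) (q i)) ≤
          T ((dist x (p (c j)) + dist (q (c j)) (q j)) + dist (q i) (q j)) := by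
        apply hT.mono
        have := dist_triangle (q (c j)) (q j) (q i)
        rw [dist_comm (q j) (q i)] at this
        linarith
      have h3 := hT.sub (a := dist x (p (c j)) + dist (q (c j)) (q j)) (b := dist (q i) (q j))
        (by positivity) dist_nonneg
      rw [fix_dist hX hT] at h3
      linarith)
    (fun i j => by
      have h1 : dist (q i) (q j) ≤
          (dist x (p (c i)) + dist (q (c i)) (q i)) + (dist x (p (c j)) + dist (q (c j)) (q j)) := by
        have e1 := dist_triangle4 (q i) (q (c i)) (q (c j)) (q j)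
        have e2 := h (c i) (c j)
        have e3 := dist_triangle (p (c i)) x (p (c j))
        rw [dist_comm (p (c i)) x] at e3
        rw [dist_comm (q i) (q (c i))] at e1
        linarith
      have h2 := hT.mono h1
      have h3 := hT.sub (a := dist x (p (c i)) + dist (q (c i)) (q i))
        (b := dist x (p (c j)) + dist (q (c j)) (q j)) (by positivity) (by positivity)
      rw [fix_dist hX hT] at h2
      linarith)
  refine ⟨y, fun i => ?_⟩
  rw [hy i]
  have h1 := hc i i
  rw [dist_self, add_zero] at h1
  exact (hT.le _).trans h1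

/-- the relation between a point at distances `g` from the points `p i` -/
def W (p : ℕ → X) (g : ℕ → ℝ) (i j : ℕ) : Prop :=
  g i ≤ dist (p i) (p j) + g j ∧ g j ≤ dist (p i) (p j) + g i ∧ dist (p i) (p j) ≤ g i + g j

theorem W.symm {p : ℕ → X} {g : ℕ → ℝ} {i j : ℕ} (h : W p g i j) : W p g j i := by
  obtain ⟨h1, h2, h3⟩ := h
  rw [dist_comm] at h1 h2 h3
  exact ⟨h2, h1, by linarith⟩

variable {Z : Type} (dZ : Z → Z → ℝ) (ez : ℕ → Z)

/-- the properties of the sequence `p` below `n` -/
def Pre (T : ℝ → ℝ) (p : ℕ → X) (n : ℕ) : Prop :=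
  (∀ m l, 2 * m < n → l < m → dist (p (2 * m)) (p (2 * l)) = dZ (ez m) (ez l)) ∧
  ∀ m k, 2 * m < n → 2 * k + 1 < 2 * m → ∃ r, r < 2 * k + 1 ∧
    dist (p (2 * m)) (p (2 * k + 1)) =
      T (dist (p (2 * k + 1)) (p r) + dist (p r) (p (2 * m)))

theorem katetov (hX : IsUry B X) (hT : Cap B T) (hs : ∀ a b, dZ a b = dZ b a)
    (ht : ∀ a b c, dZ a c ≤ dZ a b + dZ b c) (p : ℕ → X) (m : ℕ)
    (hp : Pre dZ ez T p (2 * m)) (g : ℕ → ℝ) (hg0 : ∀ i, 0 ≤ g i) (hgT : ∀ i, T (g i) = g i)
    (hge : ∀ l, g (2 * l) = dZ (ez m) (ez l))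
    (hgo : ∀ k, (∃ r, r < 2 * k + 1 ∧ g (2 * k + 1) = T (dist (p (2 * k + 1)) (p r) + g r)) ∧
      ∀ r, r < 2 * k + 1 → g (2 * k + 1) ≤ T (dist (p (2 * k + 1)) (p r) + g r)) :
    ∀ N, N < 2 * m → ∀ j, j < N → W p g N j := by
  intro N
  induction N using Nat.strong_induction_on with
  | _ N ihN =>
  intro hN
  have key : ∀ i r, i < N → r < N → W p g i r := by
    intro i r hi hr
    rcases lt_trichotomy i r with h | h | h
    · exact (ihN r hr (by omega) i h).symm
    · subst h
      refine ⟨?_, ?_, ?_⟩
      · rw [dist_self]; linarith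
      · rw [dist_self]; linarith
      · rw [dist_self]; have := hg0 i; linarith
    · exact ihN i hi (by omega) r h
  rcases Nat.even_or_odd' N with ⟨l, hl | hl⟩
  · -- even
    subst hl
    intro j
    induction j using Nat.strong_induction_on with
    | _ j ihj =>
    intro hj
    rcases Nat.even_or_odd' j with ⟨l', hl' | hl'⟩
    · subst hl'
      have e := hp.1 l l' hN (by omega)
      unfold W
      rw [e, hge, hge]
      refine ⟨?_, ?_, ?_⟩
      · have := ht (ez m) (ez l') (ez l)
        rw [hs (ez l') (ez l)] at this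
        linarith
      · have := ht (ez m) (ez l) (ez l')
        linarith
      · have := ht (ez l) (ez m) (ez l')
        rw [hs (ez l) (ez m)] at this
        linarith
    · subst hl'
      obtain ⟨⟨r, hr, hgr⟩, hall⟩ := hgo l'
      obtain ⟨r', hr', hd⟩ := hp.2 l l' hN hj
      obtain ⟨a1, a2, a3⟩ := ihj r hr (by omega)
      obtain ⟨b1, b2, b3⟩ := ihj r' hr' (by omega)
      refine ⟨?_, ?_, ?_⟩
      · have h1 : g (2 * l) ≤ dist (p (2 * l)) (p (2 * l' + 1)) +
            (dist (p (2 * l' + 1)) (p r) + g r) := by
          have := dist_triangle (p (2 * l)) (p (2 * l' + 1)) (p r)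
          linarith
        have h2 := hT.mono h1
        have h3 := hT.sub (a := dist (p (2 * l)) (p (2 * l' + 1)))
          (b := dist (p (2 * l' + 1)) (p r) + g r) dist_nonneg
          (by have := hg0 r; positivity)
        rw [fix_dist hX hT] at h3
        rw [hgT] at h2
        rw [hgr]
        linarith
      · have h0 := hall r' hr'
        have h1 : dist (p (2 * l' + 1)) (p r') + g r' ≤
            (dist (p (2 * l' + 1)) (p r') + dist (p r') (p (2 * l))) + g (2 * l) := by
          rw [dist_comm (p r') (p (2 * l))]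
          linarith
        have h2 := hT.mono h1
        have h3 := hT.sub (a := dist (p (2 * l' + 1)) (p r') + dist (p r') (p (2 * l)))
          (b := g (2 * l)) (by positivity) (hg0 _)
        rw [hgT] at h3
        rw [hd]
        linarith
      · have h1 : dist (p (2 * l)) (p (2 * l' + 1)) ≤
            (dist (p (2 * l' + 1)) (p r) + g r) + g (2 * l) := by
          have := dist_triangle (p (2 * l)) (p r) (p (2 * l' + 1))
          rw [dist_comm (p r) (p (2 * l' + 1))] at this
          linarith
        have h2 := hT.mono h1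
        have h3 := hT.sub (a := dist (p (2 * l' + 1)) (p r) + g r)
          (b := g (2 * l)) (by have := hg0 r; positivity) (hg0 _)
        rw [hgT] at h3
        rw [fix_dist hX hT] at h2
        rw [hgr]
        linarith
  · -- odd
    subst hl
    intro j hj
    obtain ⟨⟨r, hr, hgr⟩, hall⟩ := hgo l
    obtain ⟨a1, a2, a3⟩ := key j r hj hr
    refine ⟨?_, ?_, ?_⟩
    · exact (hall j hj).trans (hT.le _)
    · have h1 : g j ≤ dist (p (2 * l + 1)) (p j) + (dist (p (2 * l + 1)) (p r) + g r) := by
        have := dist_triangle (p j) (p (2 * l + 1)) (p r)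
        rw [dist_comm (p j) (p (2 * l + 1))] at this
        linarith
      have h2 := hT.mono h1
      have h3 := hT.sub (a := dist (p (2 * l + 1)) (p j))
        (b := dist (p (2 * l + 1)) (p r) + g r) dist_nonneg (by have := hg0 r; positivity)
      rw [fix_dist hX hT] at h3
      rw [hgT] at h2
      rw [hgr]
      linarith
    · have h1 : dist (p (2 * l + 1)) (p j) ≤ (dist (p (2 * l + 1)) (p r) + g r) + g j := by
        have := dist_triangle (p (2 * l + 1)) (p r) (p j)
        rw [dist_comm (p r) (p j)] at this
        linarith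
      have h2 := hT.mono h1
      have h3 := hT.sub (a := dist (p (2 * l + 1)) (p r) + g r)
        (b := g j) (by have := hg0 r; positivity) (hg0 _)
      rw [hgT] at h3
      rw [fix_dist hX hT] at h2
      rw [hgr]
      linarith

theorem good_embedding (hX : IsUry B X) (hT : Cap B T) [Countable Z] [Nonempty Z]
    (dZ : Z → Z → ℝ) (h0 : ∀ a, dZ a a = 0) (hs : ∀ a b, dZ a b = dZ b a)
    (ht : ∀ a b c, dZ a c ≤ dZ a b + dZ b c) (hr : ∀ a b, ∃ q : ℚ, B q ∧ dZ a b = q) :
    ∃ j : Z → X, (∀ a b, dist (j a) (j b) = dZ a b) ∧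
      ∀ φ : Z → X, (∀ a b, dist (φ a) (φ b) ≤ dZ a b) →
        ∃ F : X → X, (∀ x y, dist (F x) (F y) ≤ dist x y) ∧ ∀ a, F (j a) = φ a := by
  have := hX.countable
  have := exists_point hX hT
  obtain ⟨ex, hex⟩ := exists_surjective_nat X
  obtain ⟨ez, hez⟩ := exists_surjective_nat Z
  have hZ0 : ∀ a b, 0 ≤ dZ a b := by
    intro a b
    have := ht a b a
    rw [h0, hs b a] at this
    linarith
  have hZT : ∀ a b, T (dZ a b) = dZ a b := by
    intro a b
    obtain ⟨q, hq, h⟩ := hr a b
    rw [h]
    exact hT.fix hq
  -- the sequence of points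
  obtain ⟨p, hp⟩ := seq_exists (fun n (s : Fin n → X) x =>
    (∀ m, n = 2 * m → (∀ l (h : 2 * l < n), dist x (s ⟨2 * l, h⟩) = dZ (ez m) (ez l)) ∧
      ∀ k (h : 2 * k + 1 < n), ∃ r, ∃ (h' : r < n), r < 2 * k + 1 ∧ dist x (s ⟨2 * k + 1, h⟩) =
        T (dist (s ⟨2 * k + 1, h⟩) (s ⟨r, h'⟩) + dist (s ⟨r, h'⟩) x)) ∧
    ∀ m, n = 2 * m + 1 → x = ex m)
  simp only at hp
  have hpre : ∀ n, Pre dZ ez T p n ∧ ∀ m, 2 * m + 1 < n → p (2 * m + 1) = ex m := by
    intro n
    induction n with
    | zero => exact ⟨⟨fun _ _ h => by omega, fun _ _ h => by omega⟩, fun _ h => by omega⟩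
    | succ n ih =>
      obtain ⟨hP, hO⟩ := ih
      rcases Nat.even_or_odd' n with ⟨m, hm | hm⟩
      · subst hm
        -- the distances to the new point
        obtain ⟨g, hg⟩ := seq_exists (X := ℝ) (fun k (s : Fin k → ℝ) y =>
          (∀ l, k = 2 * l → y = dZ (ez m) (ez l)) ∧
          ∀ l, k = 2 * l + 1 → (∃ r : Fin k, y = T (dist (p k) (p r) + s r)) ∧
            ∀ r : Fin k, y ≤ T (dist (p k) (p r) + s r))
        simp only at hg
        have hg' : ∀ k, (∀ l, k = 2 * l → g k = dZ (ez m) (ez l)) ∧
            ∀ l, k = 2 * l + 1 → (∃ r : Fin k, g k = T (dist (p k) (p r) + g r)) ∧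
              ∀ r : Fin k, g k ≤ T (dist (p k) (p r) + g r) := by
          intro k
          refine hg k ?_
          rcases Nat.even_or_odd' k with ⟨l, hl | hl⟩
          · refine ⟨dZ (ez m) (ez l), fun l' hl' => ?_, fun l' hl' => by omega⟩
            have : l = l' := by omega
            rw [this]
          · obtain ⟨r, _, hr'⟩ := Finset.exists_min_image (Finset.univ : Finset (Fin k))
              (fun r : Fin k => T (dist (p k) (p r) + g r)) ⟨⟨0, by omega⟩, Finset.mem_univ _⟩
            exact ⟨_, fun l' hl' => by omega, fun l' _ => ⟨⟨r, rfl⟩,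
              fun r' => hr' r' (Finset.mem_univ _)⟩⟩
        have hge : ∀ l, g (2 * l) = dZ (ez m) (ez l) := fun l => (hg' (2 * l)).1 l rfl
        have hgo : ∀ k, (∃ r, r < 2 * k + 1 ∧
            g (2 * k + 1) = T (dist (p (2 * k + 1)) (p r) + g r)) ∧
            ∀ r, r < 2 * k + 1 → g (2 * k + 1) ≤ T (dist (p (2 * k + 1)) (p r) + g r) := by
          intro k
          obtain ⟨⟨r, hr1⟩, hr2⟩ := (hg' (2 * k + 1)).2 k rfl
          exact ⟨⟨r, r.2, hr1⟩, fun r h => hr2 ⟨r, h⟩⟩
        have hg0 : ∀ i, 0 ≤ g i := by
          intro i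
          induction i using Nat.strong_induction_on with
          | _ i ihi =>
          rcases Nat.even_or_odd' i with ⟨l, hl | hl⟩
          · subst hl; rw [hge]; exact hZ0 _ _
          · subst hl
            obtain ⟨⟨r, hr1, hr2⟩, _⟩ := hgo l
            rw [hr2]
            have := ihi r hr1
            exact hT.nonneg (by positivity)
        have hgr : ∀ i, ∃ q : ℚ, B q ∧ g i = q := by
          intro i
          induction i using Nat.strong_induction_on with
          | _ i ihi =>
          rcases Nat.even_or_odd' i with ⟨l, hl | hl⟩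
          · subst hl; rw [hge]; exact hr _ _
          · subst hl
            obtain ⟨⟨r, hr1, hr2⟩, _⟩ := hgo l
            rw [hr2]
            have := hg0 r
            exact rat_add hT (hX.rational _ _) (ihi r hr1) (by positivity)
        have hgT : ∀ i, T (g i) = g i := by
          intro i
          obtain ⟨q, hq, h⟩ := hgr i
          rw [h]
          exact hT.fix hq
        have hK := katetov dZ ez hX hT hs ht p m hP g hg0 hgT hge hgo
        have hK' : ∀ i j, i < 2 * m → j < 2 * m → W p g i j := by
          intro i j hi hj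
          rcases lt_trichotomy i j with h | h | h
          · exact (hK j hj i h).symm
          · subst h
            refine ⟨?_, ?_, ?_⟩
            · rw [dist_self]; linarith
            · rw [dist_self]; linarith
            · rw [dist_self]; have := hg0 i; linarith
          · exact hK i hi j h
        obtain ⟨x, hx⟩ := ext hX hT (fun i : Fin (2 * m) => p i) (fun i => g i)
          (fun i => hgr i) (fun i => hg0 i) (fun i j => (hK' i j i.2 j.2).1)
          (fun i j => (hK' i j i.2 j.2).2.2)
        have hQ := hp (2 * m) ⟨x, ?_, ?_⟩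
        · obtain ⟨hQ1, hQ2⟩ := hQ.1 m rfl
          refine ⟨⟨fun m' l h1 h2 => ?_, fun m' k h1 h2 => ?_⟩, fun m' h => hO m' (by omega)⟩
          · rcases Nat.lt_or_ge (2 * m') (2 * m) with h | h
            · exact hP.1 m' l h h2
            · have : m' = m := by omega
              subst this
              exact hQ1 l (by omega)
          · rcases Nat.lt_or_ge (2 * m') (2 * m) with h | h
            · exact hP.2 m' k h h2
            · have : m' = m := by omega
              subst this
              obtain ⟨r, _, hr2, hr3⟩ := hQ2 k h2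
              exact ⟨r, hr2, hr3⟩
        · intro m' hm'
          have : m' = m := by omega
          subst this
          refine ⟨fun l h => ?_, fun k h => ?_⟩
          · have := hx ⟨2 * l, h⟩
            simp only at this
            rw [this, hge]
          · obtain ⟨⟨r, hr1, hr2⟩, _⟩ := hgo k
            refine ⟨r, by omega, hr1, ?_⟩
            have e1 := hx ⟨2 * k + 1, h⟩
            have e2 := hx ⟨r, by omega⟩
            simp only at e1 e2
            rw [e1, dist_comm (p r) x, e2]
            exact hr2
        · intro m' hm'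
          omega
      · subst hm
        have hQ := hp (2 * m + 1) ⟨ex m, fun m' h => by omega, fun m' h => by
          have : m' = m := by omega
          rw [this]⟩
        refine ⟨⟨fun m' l h1 h2 => hP.1 m' l (by omega) h2,
          fun m' k h1 h2 => hP.2 m' k (by omega) h2⟩, fun m' h => ?_⟩
        rcases Nat.lt_or_ge (2 * m' + 1) (2 * m + 1) with h' | h'
        · exact hO m' h'
        · have : m' = m := by omega
          subst this
          exact hQ.2 m' rfl
  have hP1 : ∀ m l, l < m → dist (p (2 * m)) (p (2 * l)) = dZ (ez m) (ez l) :=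
    fun m l h => (hpre (2 * m + 1)).1.1 m l (by omega) h
  have hP2 : ∀ m k, 2 * k + 1 < 2 * m → ∃ r, r < 2 * k + 1 ∧
      dist (p (2 * m)) (p (2 * k + 1)) = T (dist (p (2 * k + 1)) (p r) + dist (p r) (p (2 * m))) :=
    fun m k h => (hpre (2 * m + 1)).1.2 m k (by omega) h
  have hP3 : ∀ m, p (2 * m + 1) = ex m := fun m => (hpre (2 * m + 2)).2 m (by omega)
  have hP1' : ∀ m l, dist (p (2 * m)) (p (2 * l)) = dZ (ez m) (ez l) := by
    intro m l
    rcases lt_trichotomy m l with h | h | h
    · rw [dist_comm, hs]; exact hP1 l m h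
    · subst h; rw [dist_self, h0]
    · exact hP1 m l h
  refine ⟨fun z => p (2 * surjInv hez z), fun a b => ?_, fun φ hφ => ?_⟩
  · rw [hP1', surjInv_eq hez, surjInv_eq hez]
  obtain ⟨q, hq⟩ := seq_exists (fun n (s : Fin n → X) y =>
    (∀ m, n = 2 * m → y = φ (ez m)) ∧
    ∀ m, n = 2 * m + 1 → ∀ i : Fin n, dist y (s i) ≤ dist (p n) (p i))
  simp only at hq
  have hqp : ∀ n, (∀ i j, i < n → j < n → dist (q i) (q j) ≤ dist (p i) (p j)) ∧
      ∀ m, 2 * m < n → q (2 * m) = φ (ez m) := by
    intro n
    induction n with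
    | zero => exact ⟨fun _ _ h => by omega, fun _ h => by omega⟩
    | succ n ih =>
      obtain ⟨hI, hE⟩ := ih
      have hQ := hq n (by
        rcases Nat.even_or_odd' n with ⟨m, hm | hm⟩
        · refine ⟨φ (ez m), fun m' h => ?_, fun m' h => by omega⟩
          have : m' = m := by omega
          rw [this]
        · obtain ⟨y, hy⟩ := onestep hX hT (p n) (fun i : Fin n => p i) (fun i : Fin n => q i)
            (fun i j => hI i j i.2 j.2)
          exact ⟨y, fun m' h => by omega, fun m' _ => hy⟩)
      have hnew : ∀ i, i < n → dist (q n) (q i) ≤ dist (p n) (p i) := by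
        rcases Nat.even_or_odd' n with ⟨m, hm | hm⟩
        · subst hm
          intro i
          induction i using Nat.strong_induction_on with
          | _ i ihi =>
          intro hi
          rw [hQ.1 m rfl]
          rcases Nat.even_or_odd' i with ⟨l, hl | hl⟩
          · subst hl
            rw [hE l hi, hP1']
            exact hφ _ _
          · subst hl
            obtain ⟨r, hr1, hr2⟩ := hP2 m l hi
            rw [hr2, ← fix_dist hX hT (φ (ez m))]
            apply hT.mono
            have e1 := ihi r hr1 (by omega)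
            have e2 := hI (2 * l + 1) r hi (by omega)
            rw [hQ.1 m rfl] at e1
            have e3 := dist_triangle (φ (ez m)) (q r) (q (2 * l + 1))
            rw [dist_comm (q r) (q (2 * l + 1))] at e3
            rw [dist_comm (p r) (p (2 * m))]
            linarith
        · intro i hi
          exact hQ.2 m hm ⟨i, hi⟩
      refine ⟨fun i j hi hj => ?_, fun m hm => ?_⟩
      · rcases Nat.lt_or_ge i n with h | h
        · rcases Nat.lt_or_ge j n with h' | h'
          · exact hI i j h h'
          · have : j = n := by omega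
            subst this
            rw [dist_comm, dist_comm (p i)]
            exact hnew i h
        · have : i = n := by omega
          subst this
          rcases Nat.lt_or_ge j i with h' | h'
          · exact hnew j h'
          · have : j = i := by omega
            subst this
            rw [dist_self, dist_self]
      · rcases Nat.lt_or_ge (2 * m) n with h | h
        · exact hE m h
        · have e : n = 2 * m := by omega
          rw [← e]
          exact hQ.1 m e
  have hI : ∀ i j, dist (q i) (q j) ≤ dist (p i) (p j) :=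
    fun i j => (hqp (i + j + 1)).1 i j (by omega) (by omega)
  have hE : ∀ m, q (2 * m) = φ (ez m) := fun m => (hqp (2 * m + 1)).2 m (by omega)
  refine ⟨fun x => q (2 * surjInv hex x + 1), fun x y => ?_, fun a => ?_⟩
  · refine (hI _ _).trans ?_
    rw [hP3, hP3, surjInv_eq hex, surjInv_eq hex]
  · have h1 := hI (2 * surjInv hex (p (2 * surjInv hez a)) + 1) (2 * surjInv hez a)
    rw [hP3, surjInv_eq hex, dist_self] at h1
    have h2 := dist_le_zero.1 h1
    simp only
    rw [h2, hE, surjInv_eq hez]

end Pool.Agent.R687.Clo
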