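import Pool.Agent.R687.Clo.Good
import Pool.Agent.R687.Clo.Basic

/-!
Reduction of polymorphisms to unary ones, and coding of sequences of unary ones.
-/

namespace Pool.Agent.R687.Clo

open Function Classical

variable {X : Type} [MetricSpace X] {B : ℚ → Prop} {T : ℝ → ℝ}

/-- non-expansive self-maps -/
def NE (F : X → X) : Prop := ∀ x y, dist (F x) (F y) ≤ dist x y

/-- a self-map as a unary operation -/
def un (F : X → X) : Op X 0 := fun x => F (x 0)

theorem pol_le (hX : IsUry B X) {n : ℕ} {f : Op X n} (hf : f ∈ Pol (metRel X) n)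
    (x y : Fin (n + 1) → X) (r : ℝ) (h : ∀ j, dist (x j) (y j) ≤ r) : dist (f x) (f y) ≤ r := by
  obtain ⟨j, _, hj⟩ := Finset.exists_max_image (Finset.univ : Finset (Fin (n + 1)))
    (fun j => dist (x j) (y j)) ⟨0, Finset.mem_univ _⟩
  obtain ⟨q, _, hq⟩ := hX.rational (x j) (y j)
  have hq0 : 0 ≤ q := by
    have : (0 : ℝ) ≤ q := by rw [← hq]; exact dist_nonneg
    exact_mod_cast this
  have := hf ⟨q, hq0⟩ x y (fun j' => by
    show dist (x j') (y j') ≤ (q : ℝ)
    rw [← hq]
    exact hj j' (Finset.mem_univ _))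
  have h2 : dist (f x) (f y) ≤ (q : ℝ) := this
  rw [← hq] at h2
  exact h2.trans (h j)

theorem un_mem {F : X → X} (hF : NE F) : un F ∈ Pol (metRel X) 0 := by
  intro q x y h
  exact (hF _ _).trans (h 0)

/-- existence of a pairing function with non-expansive inverses -/
theorem pairing (hX : IsUry B X) (hT : Cap B T) : ∃ (j : X → X → X) (a b : X → X),
    (∀ x y z w, dist (j x y) (j z w) = max (dist x z) (dist y w)) ∧ NE a ∧ NE b ∧
    (∀ x y, a (j x y) = x) ∧ ∀ x y, b (j x y) = y := by
  have := hX.countable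
  have := exists_point hX hT
  obtain ⟨j, hj, hφ⟩ := good_embedding hX hT (Z := X × X)
    (fun u v => max (dist u.1 v.1) (dist u.2 v.2)) (fun u => by simp)
    (fun u v => by simp only [dist_comm]) (fun u v w => by
      refine max_le ?_ ?_
      · exact (dist_triangle _ v.1 _).trans (add_le_add (le_max_left _ _) (le_max_left _ _))
      · exact (dist_triangle _ v.2 _).trans (add_le_add (le_max_right _ _) (le_max_right _ _)))
    (fun u v => by
      rcases max_choice (dist u.1 v.1) (dist u.2 v.2) with h | h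
      · obtain ⟨q, hq, h2⟩ := hX.rational u.1 v.1
        exact ⟨q, hq, h.trans h2⟩
      · obtain ⟨q, hq, h2⟩ := hX.rational u.2 v.2
        exact ⟨q, hq, h.trans h2⟩)
  obtain ⟨a, ha, ha'⟩ := hφ Prod.fst (fun u v => le_max_left _ _)
  obtain ⟨b, hb, hb'⟩ := hφ Prod.snd (fun u v => le_max_right _ _)
  exact ⟨fun x y => j (x, y), a, b, fun x y z w => hj _ _, ha, hb, fun x y => ha' (x, y),
    fun x y => hb' (x, y)⟩

/-- iterated pairing -/
def pk (j : X → X → X) : (k : ℕ) → Op X k
  | 0 => fun x => x 0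
  | k + 1 => fun x => j (x 0) (pk j k (fun i => x i.succ))

/-- iterated unpairing -/
def dk (a b : X → X) : (k : ℕ) → X → (Fin (k + 1) → X)
  | 0 => fun v _ => v
  | k + 1 => fun v => Fin.cons (a v) (dk a b k (b v))

theorem dk_pk {j : X → X → X} {a b : X → X} (ha : ∀ x y, a (j x y) = x)
    (hb : ∀ x y, b (j x y) = y) : ∀ (k : ℕ) (x : Fin (k + 1) → X), dk a b k (pk j k x) = x
  | 0, x => by
    funext i
    have hi : i = 0 := Fin.ext (by omega)
    subst hi
    rfl
  | k + 1, x => by
    funext i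
    refine Fin.cases ?_ (fun i => ?_) i
    · simp [dk, pk, ha]
    · simp only [dk, pk, Fin.cons_succ, hb]
      rw [dk_pk ha hb k]

theorem dk_ne {a b : X → X} (ha : NE a) (hb : NE b) : ∀ (k : ℕ) (v w : X) (i : Fin (k + 1)),
    dist (dk a b k v i) (dk a b k w i) ≤ dist v w
  | 0, v, w, i => le_refl _
  | k + 1, v, w, i => by
    refine Fin.cases ?_ (fun i => ?_) i
    · exact ha v w
    · simp only [dk, Fin.cons_succ]
      exact (dk_ne ha hb k (b v) (b w) i).trans (hb v w)

/-- the pairing as a binary operation -/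
def pop (j : X → X → X) : Op X 1 := fun x => j (x 0) (x 1)

theorem pop_mem {j : X → X → X}
    (hj : ∀ x y z w, dist (j x y) (j z w) = max (dist x z) (dist y w)) :
    pop j ∈ Pol (metRel X) 1 := by
  intro q x y h
  show dist (j (x 0) (x 1)) (j (y 0) (y 1)) ≤ _
  rw [hj]
  exact max_le (h 0) (h 1)

theorem pk_depth (j : X → X → X) (U : Fam X) (hU : pop j ∈ U 1) :
    ∀ k, pk j k ∈ depth U k k
  | 0 => ⟨0, rfl⟩
  | k + 1 => by
    have h1 : cmp (pk j k) (fun i => pr X (k + 1) i.succ) ∈ depth U (k + 1) (k + 0) :=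
      depth_comp U (pk_depth j U hU k) (fun i => ⟨i.succ, rfl⟩)
    exact depth_succ U hU (g := ![pr X (k + 1) 0, cmp (pk j k) (fun i => pr X (k + 1) i.succ)])
      (fun l => by
        fin_cases l
        · exact depth_proj _ _ _ _
        · exact h1)

/-- every polymorphism is a unary one composed with the iterated pairing -/
theorem factor (hX : IsUry B X) {j : X → X → X} {a b : X → X} (ha : ∀ x y, a (j x y) = x)
    (hb : ∀ x y, b (j x y) = y) (ha' : NE a) (hb' : NE b) {k : ℕ} {f : Op X k}
    (hf : f ∈ Pol (metRel X) k) : ∃ g : X → X, NE g ∧ f = fun x => g (pk j k x) :=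
  ⟨fun v => f (dk a b k v), fun v w => pol_le hX hf _ _ _ (fun i => dk_ne ha' hb' k v w i), by
    funext x
    simp only
    rw [dk_pk ha hb]⟩

/-- coding of a sequence of unary non-expansive maps -/
theorem coding (hX : IsUry B X) (hT : Cap B T) (D : X → X → ℝ) (hDs : ∀ x y, D x y = D y x)
    (hDr : ∀ x y, ∃ q : ℚ, B q ∧ D x y = q) (hD1 : ∀ x y z, D x z ≤ dist x y + D y z)
    (hD2 : ∀ x y z, dist x z ≤ D x y + D y z) (hD3 : ∀ x y z, D x z ≤ D x y + D y z) :
    ∃ s t : X → X, NE s ∧ NE t ∧ ∀ g : ℕ → X → X, (∀ n, NE (g n)) →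
      (∀ n m x y, n ≠ m → dist (g n x) (g m y) ≤ D x y) →
      ∃ F : X → X, NE F ∧ ∀ n x, g n x = F (s^[n] (t x)) := by
  have := hX.countable
  have := exists_point hX hT
  let dZ : X × ℕ → X × ℕ → ℝ := fun u v => if u.2 = v.2 then dist u.1 v.1 else D u.1 v.1
  obtain ⟨j, hj, hφ⟩ := good_embedding hX hT (Z := X × ℕ) dZ (fun u => by simp [dZ])
    (fun u v => by
      by_cases h : u.2 = v.2
      · simp only [dZ, h, if_true, dist_comm]
      · simp only [dZ, h, Ne.symm h, if_false, hDs])
    (fun u v w => by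
      by_cases h1 : u.2 = v.2
      · by_cases h2 : v.2 = w.2
        · have h3 : u.2 = w.2 := h1.trans h2
          simp only [dZ, if_pos h1, if_pos h2, if_pos h3]
          exact dist_triangle _ _ _
        · have h3 : u.2 ≠ w.2 := fun h => h2 (h1.symm.trans h)
          simp only [dZ, if_pos h1, if_neg h2, if_neg h3]
          exact hD1 _ _ _
      · by_cases h2 : v.2 = w.2
        · have h3 : u.2 ≠ w.2 := fun h => h1 (h.trans h2.symm)
          simp only [dZ, if_neg h1, if_pos h2, if_neg h3]
          have := hD1 w.1 v.1 u.1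
          rw [hDs u.1 w.1, hDs u.1 v.1, dist_comm v.1 w.1]
          linarith
        · by_cases h3 : u.2 = w.2
          · simp only [dZ, if_neg h1, if_neg h2, if_pos h3]
            exact hD2 _ _ _
          · simp only [dZ, if_neg h1, if_neg h2, if_neg h3]
            exact hD3 _ _ _)
    (fun u v => by
      by_cases h : u.2 = v.2
      · simp only [dZ, if_pos h]
        exact hX.rational _ _
      · simp only [dZ, if_neg h]
        exact hDr _ _)
  obtain ⟨s, hs, hs'⟩ := hφ (fun u => j (u.1, u.2 + 1)) (fun u v => by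
    rw [hj]
    by_cases h : u.2 = v.2
    · simp [dZ, h]
    · simp [dZ, h])
  refine ⟨s, fun x => j (x, 0), hs, fun x y => by rw [hj]; simp [dZ], fun g hg hgD => ?_⟩
  obtain ⟨F, hF, hF'⟩ := hφ (fun u => g u.2 u.1) (fun u v => by
    by_cases h : u.2 = v.2
    · simp only [dZ, if_pos h, h]
      exact hg _ _ _
    · simp only [dZ, if_neg h]
      exact hgD _ _ _ _ h)
  have hit : ∀ n x, s^[n] (j (x, 0)) = j (x, n) := by
    intro n x
    induction n with
    | zero => rfl
    | succ n ih => rw [Function.iterate_succ_apply', ih, hs']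
  refine ⟨F, hF, fun n x => ?_⟩
  simp only
  rw [hit, hF']

end Pool.Agent.R687.Clo
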