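import Pool.Agent.R687.Clo.Basic

/-!
The polymorphism clone of `(ℚ, ≤)` has the Bergman property.
-/

namespace Pool.Agent.R687.Clo

/-- the interpolating function -/
noncomputable def inter (h : ℤ → ℚ) (u v : ℤ) : ℚ :=
  if huv : -v ≤ u then (Finset.Icc (-v) u).sup' (Finset.nonempty_Icc.2 huv) h
  else (Finset.Icc u (-v)).inf' (Finset.nonempty_Icc.2 (not_le.1 huv).le) h

theorem inter_mono {h h' : ℤ → ℚ} (hh : ∀ n, h n ≤ h' n) {u u' v v' : ℤ} (hu : u ≤ u')
    (hv : v ≤ v') : inter h u v ≤ inter h' u' v' := by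
  unfold inter
  by_cases h1 : -v ≤ u
  · have h2 : -v' ≤ u' := by omega
    rw [dif_pos h1, dif_pos h2]
    refine Finset.sup'_le _ _ (fun n hn => (hh n).trans ?_)
    rw [Finset.mem_Icc] at hn
    exact Finset.le_sup' h' (Finset.mem_Icc.2 ⟨by omega, by omega⟩)
  · rw [dif_neg h1]
    by_cases h2 : -v' ≤ u'
    · rw [dif_pos h2]
      have h3 : max u (-v') ∈ Finset.Icc u (-v) := Finset.mem_Icc.2 ⟨by omega, by omega⟩
      have h4 : max u (-v') ∈ Finset.Icc (-v') u' := Finset.mem_Icc.2 ⟨by omega, by omega⟩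
      exact (Finset.inf'_le h h3).trans ((hh _).trans (Finset.le_sup' h' h4))
    · rw [dif_neg h2]
      refine Finset.le_inf' _ _ (fun n hn => ?_)
      rw [Finset.mem_Icc] at hn
      exact (Finset.inf'_le h (Finset.mem_Icc.2 ⟨by omega, by omega⟩)).trans (hh n)

theorem inter_self (h : ℤ → ℚ) (n : ℤ) : inter h n (-n) = h n := by
  have h1 : - -n ≤ n := by omega
  unfold inter
  rw [dif_pos h1]
  simp

variable {k : ℕ}

/-- the coding function -/
noncomputable def code (f : ℕ → Op ℚ k) : Op ℚ (k + 2) := fun w =>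
  inter (fun n => f n.toNat (fun i => w i.succ.succ)) ⌊w 0⌋ ⌊w 1⌋

theorem code_mem (f : ℕ → Op ℚ k) (hf : ∀ n, f n ∈ Pol ratRel k) : code f ∈ Pol ratRel (k + 2) := by
  intro i x y h
  exact inter_mono (fun n => hf n.toNat i _ _ (fun j => h j.succ.succ)) (Int.floor_mono (h 0))
    (Int.floor_mono (h 1))

/-- the constant zero, as a unary function -/
def zro : Op ℚ 0 := fun _ => 0
/-- the successor function -/
def suc : Op ℚ 0 := fun x => x 0 + 1
/-- the predecessor function -/
def pre : Op ℚ 0 := fun x => x 0 - 1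

theorem bergman_rat : Bergman (Pol ratRel) := by
  refine bergman_of_distort (pol_clone _) (fun _ n => (n + 1) + 1) (fun k f hf => ?_)
  set L : List (Σ n, Op ℚ n) := [⟨k + 2, code f⟩, ⟨0, zro⟩, ⟨0, suc⟩, ⟨0, pre⟩] with hL
  have hc : code f ∈ lfam L (k + 2) := by simp [lfam, hL]
  have hz : zro ∈ lfam L 0 := by simp [lfam, hL]
  have hs : suc ∈ lfam L 0 := by simp [lfam, hL]
  have hp : pre ∈ lfam L 0 := by simp [lfam, hL]
  refine ⟨L, ?_, fun n => ?_⟩
  · intro p hp
    simp only [hL, List.mem_cons, List.not_mem_nil, or_false] at hp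
    rcases hp with rfl | rfl | rfl | rfl
    · exact code_mem f hf
    · exact fun _ _ _ _ => le_refl (0 : ℚ)
    · exact fun _ x y h => by
        show x 0 + 1 ≤ y 0 + 1
        have : x 0 ≤ y 0 := h 0
        linarith
    · exact fun _ x y h => by
        show x 0 - 1 ≤ y 0 - 1
        have : x 0 ≤ y 0 := h 0
        linarith
  · have h1 : ∀ m : ℕ, (fun _ : Fin (k + 1) → ℚ => (m : ℚ)) ∈ depth (lfam L) k (m + 1) := by
      intro m
      induction m with
      | zero =>
        have := depth_succ (lfam L) hz (g := fun _ => pr ℚ k 0) (i := 0)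
          (fun _ => depth_proj _ _ _ _)
        convert this using 1
        funext x
        simp [cmp, zro]
      | succ m ih =>
        have := depth_succ (lfam L) hs (g := fun _ => (fun _ : Fin (k + 1) → ℚ => (m : ℚ)))
          (fun _ => ih)
        convert this using 1
        funext x
        simp [cmp, suc]
    have h2 : ∀ m : ℕ, (fun _ : Fin (k + 1) → ℚ => -(m : ℚ)) ∈ depth (lfam L) k (m + 1) := by
      intro m
      induction m with
      | zero =>
        have := depth_succ (lfam L) hz (g := fun _ => pr ℚ k 0) (i := 0)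
          (fun _ => depth_proj _ _ _ _)
        convert this using 1
        funext x
        simp [cmp, zro]
      | succ m ih =>
        have := depth_succ (lfam L) hp (g := fun _ => (fun _ : Fin (k + 1) → ℚ => -(m : ℚ)))
          (fun _ => ih)
        convert this using 1
        funext x
        simp only [cmp, pre]
        push_cast
        ring
    have h3 := depth_succ (lfam L) hc
      (g := Fin.cons (fun _ => (n : ℚ)) (Fin.cons (fun _ => -(n : ℚ)) (fun i => pr ℚ k i)))
      (i := n + 1) (fun j => by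
        refine Fin.cases ?_ (fun j => ?_) j
        · exact h1 n
        · refine Fin.cases ?_ (fun j => ?_) j
          · exact h2 n
          · exact depth_proj _ _ _ _)
    convert h3 using 1
    funext x
    have e1 : ⌊(n : ℚ)⌋ = (n : ℤ) := by simp
    have e2 : ⌊-(n : ℚ)⌋ = -(n : ℤ) := by
      have : -(n : ℚ) = ((-(n : ℤ) : ℤ) : ℚ) := by push_cast; ring
      rw [this, Int.floor_intCast]
    show f n x = inter (fun m : ℤ => f m.toNat x) ⌊(n : ℚ)⌋ ⌊-(n : ℚ)⌋
    rw [e1, e2, inter_self]
    simp

end Pool.Agent.R687.Clo
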