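import Pool.Agent.R687.Clo.Sphere

/-!
The polymorphism clone of the rational Urysohn space does not have the Bergman property, and every
countable set of its members is contained in a finitely generated subclone.
-/

namespace Pool.Agent.R687.Clo

open Function Classical

variable {X : Type} [MetricSpace X]

/-- composition of a list of self-maps -/
def lc : List (X → X) → X → X
  | [] => id
  | h :: l => h ∘ lc l

/-- every point is reached from `x0` by a composition of isometries of displacement at most one -/
theorem reach (hX : IsUrySpace X) (x0 : X) : ∀ (N : ℕ) (p : X), dist x0 p ≤ N →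
    ∃ (τ : X ≃ᵢ X) (l : List (X → X)), (∀ h ∈ l, NE h ∧ dist (h x0) x0 ≤ 1) ∧ ⇑τ = lc l ∧
      τ x0 = p := by
  have hX' : IsUry (fun _ => True) X := hX
  intro N
  induction N with
  | zero =>
    intro p hp
    have : x0 = p := dist_le_zero.1 (by simpa using hp)
    subst this
    exact ⟨IsometryEquiv.refl X, [], by simp, rfl, rfl⟩
  | succ N ih =>
    intro p hp
    have hq : ∃ q, dist x0 q ≤ 1 ∧ dist q p ≤ N := by
      rcases Nat.eq_zero_or_pos N with h | h
      · subst h
        exact ⟨p, by simpa using hp, by simp⟩
      by_cases hle : dist x0 p ≤ N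
      · exact ⟨x0, by simp, hle⟩
      push Not at hle
      have hN : (1 : ℝ) ≤ N := by exact_mod_cast h
      obtain ⟨r, _, hr⟩ := hX'.rational x0 p
      obtain ⟨q, hq⟩ := ext hX' cap_space ![x0, p] ![1, dist x0 p - 1]
        (fun i => by
          fin_cases i
          · exact ⟨1, trivial, by norm_num⟩
          · exact ⟨r - 1, trivial, by simp [hr]⟩)
        (fun i => by
          fin_cases i
          · norm_num
          · simp only [Fin.mk_one, Matrix.cons_val_one, Matrix.cons_val_fin_one]; linarith)
        (fun i j => by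
          fin_cases i <;> fin_cases j <;> simp [dist_comm p x0] <;> linarith)
        (fun i j => by
          fin_cases i <;> fin_cases j <;> simp [dist_comm p x0] <;> linarith)
      have h1 := hq 0
      have h2 := hq 1
      simp only [Matrix.cons_val_zero, Matrix.cons_val_one, Matrix.cons_val_fin_one] at h1 h2
      refine ⟨q, by rw [dist_comm, h1], ?_⟩
      rw [h2]
      push_cast at hp
      linarith
    obtain ⟨q, hq1, hq2⟩ := hq
    obtain ⟨β, hβ⟩ := hX'.homogeneous {x0} (fun _ => q) (by
      intro x hx y hy
      rw [Finset.mem_singleton] at hx hy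
      subst hx
      subst hy
      simp)
    have hβ0 : β x0 = q := hβ x0 (by simp)
    obtain ⟨τ, l, hl, hτ, hτ0⟩ := ih (β.symm p) (by
      rw [← β.dist_eq, hβ0, IsometryEquiv.apply_symm_apply]
      exact hq2)
    refine ⟨τ.trans β, β :: l, ?_, ?_, ?_⟩
    · intro h hh
      rcases List.mem_cons.1 hh with rfl | hh
      · exact ⟨fun x y => (β.dist_eq x y).le, by rw [hβ0, dist_comm]; exact hq1⟩
      · exact hl h hh
    · funext x
      simp [lc, ← hτ]
    · simp [hτ0]

/-- a family closed under composition with unary members -/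
theorem lc_gen (U : Fam X) {k : ℕ} {h : Op X k} (hh : h ∈ gen U k) :
    ∀ l : List (X → X), (∀ F ∈ l, un F ∈ gen U 0) → (fun x => lc l (h x)) ∈ gen U k
  | [], _ => hh
  | F :: l, hl => by
    have h1 := lc_gen U hh l (fun G hG => hl G (List.mem_cons_of_mem _ hG))
    exact (gen_clone U).comp 0 k (un F) (fun _ => fun x => lc l (h x))
      (hl F List.mem_cons_self) (fun _ => h1)

theorem exists_nat_dist (x y : X) : ∃ N : ℕ, dist x y ≤ N := exists_nat_ge _

theorem not_bergman_space (hX : IsUrySpace X) : ¬ Bergman (Pol (metRel X)) := by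
  have hX' : IsUry (fun _ => True) X := hX
  obtain ⟨x0⟩ := exists_point hX' cap_space
  intro hB
  let H : Fam X := fun n => {f | f ∈ Pol (metRel X) n ∧ dist (f (fun _ => x0)) x0 ≤ 1}
  have hgen : Generates H (Pol (metRel X)) := by
    refine generates_of_gen (fun n f hf => hf.1) (fun n f hf => ?_)
    obtain ⟨N, hN⟩ := exists_nat_dist x0 (f (fun _ => x0))
    obtain ⟨τ, l, hl, hτ, hτ0⟩ := reach hX x0 N _ hN
    have h1 : (fun x => τ.symm (f x)) ∈ H n := by
      refine ⟨fun q x y h => ?_, ?_⟩
      · show dist (τ.symm (f x)) (τ.symm (f y)) ≤ _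
        rw [τ.symm.dist_eq]
        exact hf q x y h
      · simp only
        rw [← hτ0, IsometryEquiv.symm_apply_apply, dist_self]
        exact zero_le_one
    have h2 := lc_gen H (subset_gen H n h1) l (fun F hF => subset_gen H 0
      ⟨un_mem (hl F hF).1, (hl F hF).2⟩)
    rw [← hτ] at h2
    simpa using h2
  obtain ⟨n, hn⟩ := hB H hgen 0
  have hbound : ∀ (k i : ℕ) (f : Op X k), f ∈ depth H k i → dist (f (fun _ => x0)) x0 ≤ i := by
    intro k i
    induction i with
    | zero =>
      rintro f ⟨j, rfl⟩
      simp [pr]
    | succ i ih =>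
      rintro f (⟨r, u, hu, g, hg, rfl⟩ | hf)
      · have h1 : dist (u (fun l => g l (fun _ => x0))) (u (fun _ => x0)) ≤ i :=
          pol_le hX' hu.1 _ _ _ (fun l => ih _ (hg l))
        have h2 := hu.2
        have h3 := dist_triangle (u (fun l => g l (fun _ => x0))) (u (fun _ => x0)) x0
        show dist (u (fun l => g l (fun _ => x0))) x0 ≤ _
        push_cast
        linarith
      · have := ih f hf
        push_cast
        linarith
  obtain ⟨p, hp⟩ := ext hX' cap_space ![x0] ![(n : ℝ) + 1]
    (fun i => ⟨n + 1, trivial, by simp⟩) (fun i => by simp; positivity)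
    (fun i j => by
      have : i = j := Subsingleton.elim _ _
      subst this
      simp)
    (fun i j => by
      have : i = j := Subsingleton.elim _ _
      subst this
      simp; positivity)
  have hp0 : dist p x0 = (n : ℝ) + 1 := hp 0
  have hc : (fun _ => p : Op X 0) ∈ Pol (metRel X) 0 := by
    intro q x y _
    show dist p p ≤ _
    rw [dist_self]
    exact_mod_cast q.2
  rw [← hn] at hc
  have h5 : dist p x0 ≤ (n : ℝ) := hbound 0 n _ hc
  linarith

end Pool.Agent.R687.Clo
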