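import Pool.Agent.R687.Clo.Met

/-!
The polymorphism clone of the rational Urysohn sphere has the Bergman property.
-/

namespace Pool.Agent.R687.Clo

open Function Classical

variable {X : Type} [MetricSpace X]

/-- unary maps composed with a term -/
theorem un_depth (U : Fam X) {F : X → X} (hF : un F ∈ U 0) {k i : ℕ} {h : Op X k}
    (hh : h ∈ depth U k i) : (fun x => F (h x)) ∈ depth U k (i + 1) :=
  depth_succ U hF (g := fun _ => h) (fun _ => hh)

theorem un_iter_depth (U : Fam X) {F : X → X} (hF : un F ∈ U 0) {k i : ℕ} {h : Op X k}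
    (hh : h ∈ depth U k i) : ∀ n, (fun x => F^[n] (h x)) ∈ depth U k (i + n)
  | 0 => hh
  | n + 1 => by
    have := un_depth U hF (un_iter_depth U hF hh n)
    simp only [Function.iterate_succ_apply']
    exact this

theorem sphere_dist_le (hX : IsUrySphere X) (x y : X) : dist x y ≤ 1 := by
  obtain ⟨q, hq, h⟩ := hX.rational x y
  rw [h]
  exact_mod_cast hq

theorem bergman_sphere (hX : IsUrySphere X) : Bergman (Pol (metRel X)) := by
  have hX' : IsUry (fun q => q ≤ 1) X := hX
  obtain ⟨j, a, b, hj, ha, hb, ha', hb'⟩ := pairing hX' cap_sphere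
  obtain ⟨s, t, hs, ht, hco⟩ := coding hX' cap_sphere (fun _ _ => 1) (fun _ _ => rfl)
    (fun _ _ => ⟨1, le_refl _, by norm_num⟩) (fun x y z => by have := dist_nonneg (x := x) (y := y); linarith)
    (fun x y z => by have := sphere_dist_le hX x z; linarith) (fun x y z => by norm_num)
  refine bergman_of_distort (pol_clone _) (fun k n => k + 1 + n + 1) (fun k f hf => ?_)
  have hfac := fun n => factor hX' ha' hb' ha hb (hf n)
  choose g hg hfg using hfac
  obtain ⟨F, hF, hgF⟩ := hco g hg (fun n m x y _ => sphere_dist_le hX _ _)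
  set L : List (Σ n, Op X n) := [⟨1, pop j⟩, ⟨0, un F⟩, ⟨0, un s⟩, ⟨0, un t⟩] with hL
  have h1 : pop j ∈ lfam L 1 := by simp [lfam, hL]
  have h2 : un F ∈ lfam L 0 := by simp [lfam, hL]
  have h3 : un s ∈ lfam L 0 := by simp [lfam, hL]
  have h4 : un t ∈ lfam L 0 := by simp [lfam, hL]
  refine ⟨L, ?_, fun n => ?_⟩
  · intro p hp
    simp only [hL, List.mem_cons, List.not_mem_nil, or_false] at hp
    rcases hp with rfl | rfl | rfl | rfl
    · exact pop_mem hj
    · exact un_mem hF
    · exact un_mem hs
    · exact un_mem ht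
  · have := un_depth _ h2 (un_iter_depth _ h3 (un_depth _ h4 (pk_depth j _ h1 k)) n)
    rw [hfg n]
    simp only [hgF]
    exact this

end Pool.Agent.R687.Clo
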